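import Pool.Agent.J4H59.PL.Stm3

/-! Project CY2 (helper59), piece LNE (helper98): lines. -/

set_option autoImplicit false

open scoped Classical

namespace Pool.Agent.J4H98.CY

open Pool.Agent.J4H59.PG Pool.Agent.J4H59.PI Pool.Agent.J4H59.PJ Pool.Agent.J4H59.PL

/-- the double coset of `t ^ k` -/
def D {G : Type} [Group G] (N : Subgroup G) (t : G) (k : ℕ) (x : G) : Prop :=
  ∃ a ∈ N, ∃ b ∈ N, x = a * t ^ k * b

variable {G : Type} [Group G] {N : Subgroup G} {t : G}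

theorem reps {A B : Subgroup G} (h : A.relIndex B ≠ 0) :
    ∃ R : Finset G, ∀ b ∈ B, ∃ r ∈ R, r⁻¹ * b ∈ A := by
  have hf : (A.subgroupOf B).FiniteIndex := ⟨h⟩
  have hfin : Finite (B ⧸ A.subgroupOf B) := inferInstance
  have : Fintype (B ⧸ A.subgroupOf B) := Fintype.ofFinite _
  refine ⟨Finset.univ.image (fun q : B ⧸ A.subgroupOf B => ((Quotient.out q : B) : G)), ?_⟩
  intro b hb
  refine ⟨_, Finset.mem_image_of_mem _ (Finset.mem_univ ((⟨b, hb⟩ : B) : B ⧸ A.subgroupOf B)), ?_⟩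
  have h1 : ((Quotient.out ((⟨b, hb⟩ : B) : B ⧸ A.subgroupOf B) : B) : B ⧸ A.subgroupOf B) =
      ((⟨b, hb⟩ : B) : B ⧸ A.subgroupOf B) := Quotient.out_eq _
  rw [QuotientGroup.eq] at h1
  have h2 := Subgroup.mem_subgroupOf.1 h1
  simpa using h2

/-- finitely many left cosets of `N` in `N h` -/
theorem creps {h : G} (hh : h ∈ Subgroup.Commensurable.commensurator N) :
    ∃ R : Finset G, ∀ n ∈ N, ∃ r ∈ R, ∃ m ∈ N, n * h = r * m := by
  obtain ⟨R, hR⟩ := reps (mem_comm.1 hh).1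
  refine ⟨R.image (fun r => r * h), ?_⟩
  intro n hn
  obtain ⟨r, hr, h1⟩ := hR n hn
  rw [mem_cc] at h1
  refine ⟨r * h, Finset.mem_image_of_mem _ hr, _, h1, ?_⟩
  group

theorem D_left {k : ℕ} {x n : G} (hn : n ∈ N) (h : D N t k x) : D N t k (n * x) := by
  obtain ⟨a, ha, b, hb, rfl⟩ := h
  exact ⟨n * a, N.mul_mem hn ha, b, hb, by group⟩

theorem D_right {k : ℕ} {x n : G} (hn : n ∈ N) (h : D N t k x) : D N t k (x * n) := by
  obtain ⟨a, ha, b, hb, rfl⟩ := h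
  exact ⟨a, ha, b * n, N.mul_mem hb hn, by group⟩

theorem D_t (hT : Tdy N t) {k : ℕ} {x : G} (h : D N t k x) : D N t (k + 1) (x * t) := by
  obtain ⟨a, ha, b, hb, rfl⟩ := h
  obtain ⟨a', ha', b', hb', h1⟩ := hT.mul k b hb
  refine ⟨a * a', N.mul_mem ha ha', b', hb', ?_⟩
  calc a * t ^ k * b * t = a * (t ^ k * b * t) := by group
    _ = a * (a' * t ^ (k + 1) * b') := by rw [h1]
    _ = _ := by group

theorem D_pow (hT : Tdy N t) {k : ℕ} {x : G} (h : D N t k x) (s : ℕ) : D N t (k + s) (x * t ^ s) := by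
  induction s with
  | zero => simpa using h
  | succ s ih =>
    have h1 := D_t hT ih
    have h2 : x * t ^ (s + 1) = x * t ^ s * t := by rw [pow_succ]; group
    rw [h2]
    exact h1

theorem D_mul (hT : Tdy N t) {k l : ℕ} {x y : G} (h : D N t k x) (h' : D N t l y) :
    D N t (k + l) (x * y) := by
  obtain ⟨a, ha, b, hb, rfl⟩ := h'
  have h1 := D_right hb (D_pow hT (D_right ha h) l)
  have h2 : x * (a * t ^ l * b) = x * a * t ^ l * b := by group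
  rw [h2]
  exact h1

theorem D_uni (hT : Tdy N t) {k l : ℕ} {x : G} (h : D N t k x) (h' : D N t l x) : k = l := by
  obtain ⟨a, ha, b, hb, rfl⟩ := h
  obtain ⟨c, hc, d, hd, h1⟩ := h'
  refine hT.lev k l (a⁻¹ * c) (d * b⁻¹) (N.mul_mem (N.inv_mem ha) hc) (N.mul_mem hd (N.inv_mem hb)) ?_
  calc t ^ k = a⁻¹ * (a * t ^ k * b) * b⁻¹ := by group
    _ = a⁻¹ * (c * t ^ l * d) * b⁻¹ := by rw [h1]
    _ = _ := by group

theorem N_comm : N ≤ Subgroup.Commensurable.commensurator N := by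
  intro n hn
  rw [mem_comm]
  have : cc n N = N := by
    ext z
    rw [mem_cc]
    constructor
    · intro h
      have h1 := N.mul_mem (N.mul_mem hn h) (N.inv_mem hn)
      have h2 : n * (n⁻¹ * z * n) * n⁻¹ = z := by group
      rwa [h2] at h1
    · intro h
      exact N.mul_mem (N.mul_mem (N.inv_mem hn) h) hn
  rw [this]

theorem D_comm (hT : Tdy N t) {k : ℕ} {x : G} (h : D N t k x) :
    x ∈ Subgroup.Commensurable.commensurator N := by
  obtain ⟨a, ha, b, hb, rfl⟩ := h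
  exact Subgroup.mul_mem _ (Subgroup.mul_mem _ (N_comm ha) (Subgroup.pow_mem _ hT.comm k)) (N_comm hb)

/-- finitely many cells in the levels up to `m` -/
theorem fin_lvl (hT : Tdy N t) (m : ℕ) :
    ∃ Z : Finset G, ∀ l ≤ m, ∀ x, D N t l x → ∃ z ∈ Z, z⁻¹ * x ∈ N := by
  choose R hR using fun l : ℕ => creps (N := N) (Subgroup.pow_mem _ hT.comm l)
  refine ⟨(Finset.range (m + 1)).biUnion R, ?_⟩
  rintro l hl x ⟨a, ha, b, hb, rfl⟩
  obtain ⟨r, hr, n, hn, h1⟩ := hR l a ha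
  refine ⟨r, Finset.mem_biUnion.2 ⟨l, Finset.mem_range.2 (by omega), hr⟩, ?_⟩
  rw [h1]
  have h2 : r⁻¹ * (r * n * b) = n * b := by group
  rw [h2]
  exact N.mul_mem hn hb

theorem opp (hT : Tdy N t) (g g' : G) :
    ∃ Z : Finset G, ∀ (y : G) (l j : ℕ), D N t l (g⁻¹ * y) → D N t j (y⁻¹ * g') →
      ∃ z ∈ Z, z⁻¹ * y ∈ N := by
  by_cases hg : ∃ m, D N t m (g⁻¹ * g')
  · obtain ⟨m, hm⟩ := hg
    obtain ⟨Z, hZ⟩ := fin_lvl hT m
    refine ⟨Z.image (fun z => g * z), ?_⟩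
    intro y l j h1 h2
    have h3 := D_mul hT h1 h2
    have h4 : g⁻¹ * y * (y⁻¹ * g') = g⁻¹ * g' := by group
    rw [h4] at h3
    have h5 := D_uni hT h3 hm
    obtain ⟨z, hz, h6⟩ := hZ l (by omega) _ h1
    refine ⟨g * z, Finset.mem_image_of_mem _ hz, ?_⟩
    have h7 : (g * z)⁻¹ * y = z⁻¹ * (g⁻¹ * y) := by group
    rw [h7]
    exact h6
  · refine ⟨∅, ?_⟩
    intro y l j h1 h2
    exfalso
    apply hg
    have h3 := D_mul hT h1 h2
    have h4 : g⁻¹ * y * (y⁻¹ * g') = g⁻¹ * g' := by group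
    rw [h4] at h3
    exact ⟨_, h3⟩

theorem kap (hT : Tdy N t) (r : G) : ∃ κ : ℕ, ∀ i j : ℕ, D N t j (r * t ^ i) → j ≤ i + κ := by
  by_cases h : ∃ i j : ℕ, D N t j (r * t ^ i)
  · obtain ⟨i0, j0, h0⟩ := h
    refine ⟨j0, ?_⟩
    intro i j hj
    rcases le_total i0 i with hle | hle
    · obtain ⟨d, rfl⟩ := Nat.exists_eq_add_of_le hle
      have h1 := D_pow hT h0 d
      have h2 : r * t ^ i0 * t ^ d = r * t ^ (i0 + d) := by rw [pow_add]; group
      rw [h2] at h1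
      have := D_uni hT h1 hj
      omega
    · obtain ⟨d, rfl⟩ := Nat.exists_eq_add_of_le hle
      have h1 := D_pow hT hj d
      have h2 : r * t ^ i * t ^ d = r * t ^ (i + d) := by rw [pow_add]; group
      rw [h2] at h1
      have := D_uni hT h1 h0
      omega
  · refine ⟨0, ?_⟩
    intro i j hj
    exact absurd ⟨i, j, hj⟩ h

theorem bound (hT : Tdy N t) (g : G) :
    ∃ c : ℕ, ∀ (i j : ℕ) (x : G), D N t i x → D N t j (g⁻¹ * x) → j ≤ i + c := by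
  by_cases hg : g ∈ Subgroup.Commensurable.commensurator N
  · obtain ⟨R, hR⟩ := creps (N := N) hg
    choose κ hκ using fun r : G => kap hT r
    refine ⟨R.sup (fun r => κ r⁻¹), ?_⟩
    rintro i j x ⟨a, ha, b, hb, rfl⟩ hj
    obtain ⟨r, hr, n, hn, h1⟩ := hR a⁻¹ (N.inv_mem ha)
    have h2 : g⁻¹ * a = n⁻¹ * r⁻¹ := by
      have : (a⁻¹ * g)⁻¹ = (r * n)⁻¹ := by rw [h1]
      simpa [mul_inv_rev] using this
    have h3 : r⁻¹ * t ^ i = n * (g⁻¹ * (a * t ^ i * b)) * b⁻¹ := by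
      calc r⁻¹ * t ^ i = n * (n⁻¹ * r⁻¹) * t ^ i := by group
        _ = n * (g⁻¹ * a) * t ^ i := by rw [h2]
        _ = _ := by group
    have h4 : D N t j (r⁻¹ * t ^ i) := by
      rw [h3]
      exact D_right (N.inv_mem hb) (D_left hn hj)
    have h5 := hκ r⁻¹ i j h4
    have h6 : κ r⁻¹ ≤ R.sup (fun r => κ r⁻¹) := Finset.le_sup (f := fun r => κ r⁻¹) hr
    omega
  · refine ⟨0, ?_⟩
    intro i j x hi hj
    exfalso
    apply hg
    have h1 : g = x * (g⁻¹ * x)⁻¹ := by group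
    rw [h1]
    exact Subgroup.mul_mem _ (D_comm hT hi) (Subgroup.inv_mem _ (D_comm hT hj))

/-- Job LNE -/
theorem t_LNE : S_LNE := by
  intro G _ N t hT hcov
  obtain ⟨T, hTc⟩ := hcov N le_rfl (by rw [Subgroup.relIndex_self]; exact one_ne_zero)
  obtain ⟨N2, hN2⟩ : ∃ N2 : Subgroup G, N2 = N ⊓ cc t⁻¹ N := ⟨_, rfl⟩
  have hN2m : ∀ x ∈ N2, x ∈ N ∧ t * x * t⁻¹ ∈ N := by
    intro x hx
    rw [hN2, Subgroup.mem_inf, mem_cc, inv_inv] at hx
    exact hx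
  obtain ⟨T2, hT2⟩ := hcov N2 (by rw [hN2]; exact inf_le_left) (by
    rw [hN2, inf_comm, Subgroup.inf_relIndex_right]
    exact (mem_comm.1 (Subgroup.inv_mem _ hT.comm)).1)
  obtain ⟨T', hT'⟩ : ∃ T' : Finset G, T' = insert 1 T := ⟨_, rfl⟩
  obtain ⟨X, hX⟩ : ∃ X : G → Prop, X = fun y => ∃ g ∈ T', ∃ l : ℕ, D N t l (g⁻¹ * y) := ⟨_, rfl⟩
  have hXm : ∀ y, X y ↔ ∃ g ∈ T', ∃ l : ℕ, D N t l (g⁻¹ * y) := fun y => by rw [hX]
  -- outside of X
  have hout : ∀ y, ¬ X y → ∃ g ∈ T, ∃ j : ℕ, D N t j (y⁻¹ * g) := by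
    intro y hy
    obtain ⟨g, hg, k, a, ha, b, hb, h1⟩ := hTc y
    rcases le_total 0 k with hk | hk
    · obtain ⟨l, rfl⟩ := Int.eq_ofNat_of_zero_le hk
      exfalso
      apply hy
      rw [hXm]
      refine ⟨g, by rw [hT']; exact Finset.mem_insert_of_mem hg, l, a, ha, b, hb, ?_⟩
      rw [h1, zpow_natCast]
      group
    · obtain ⟨l, hl⟩ := Int.eq_ofNat_of_zero_le (neg_nonneg.2 hk)
      have hk' : k = -(l : ℤ) := by omega
      subst hk'
      refine ⟨g, hg, l, b⁻¹, N.inv_mem hb, a⁻¹, N.inv_mem ha, ?_⟩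
      rw [h1, zpow_neg, zpow_natCast]
      group
  -- the boundary of X
  have hbd : ∃ Y : Finset G, ∀ y, X y → ¬ X (y * t⁻¹) → ∃ z ∈ Y, z⁻¹ * y ∈ N := by
    choose Z hZ using fun p : G × G => opp hT p.1 p.2
    obtain ⟨R, hR⟩ := creps (N := N) hT.comm
    refine ⟨(((T2 ×ˢ T).biUnion Z) ×ˢ R).image (fun p => p.1 * p.2) ∪ (T' ×ˢ T2).biUnion Z, ?_⟩
    intro y hy hy'
    obtain ⟨g, hg, k, a, ha, b, hb, h1⟩ := hT2 y
    rcases le_or_gt k 0 with hk | hk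
    · obtain ⟨l, hl⟩ := Int.eq_ofNat_of_zero_le (neg_nonneg.2 hk)
      have hk' : k = -(l : ℤ) := by omega
      subst hk'
      rw [hXm] at hy
      obtain ⟨g', hg', l', h2⟩ := hy
      have h3 : D N t l (y⁻¹ * g) := by
        refine ⟨b⁻¹, N.inv_mem (hN2m b hb).1, a⁻¹, N.inv_mem (hN2m a ha).1, ?_⟩
        rw [h1, zpow_neg, zpow_natCast]
        group
      obtain ⟨z, hz, h4⟩ := hZ (g', g) y l' l h2 h3
      exact ⟨z, Finset.mem_union_right _ (Finset.mem_biUnion.2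
        ⟨(g', g), Finset.mem_product.2 ⟨hg', hg⟩, hz⟩), h4⟩
    · obtain ⟨l, hl⟩ := Int.eq_ofNat_of_zero_le (show 0 ≤ k - 1 by omega)
      have hk' : k = (l : ℤ) + 1 := by omega
      subst hk'
      have h3 : D N t l (g⁻¹ * (y * t⁻¹)) := by
        refine ⟨a, (hN2m a ha).1, t * b * t⁻¹, (hN2m b hb).2, ?_⟩
        rw [h1, zpow_add_one, zpow_natCast]
        group
      obtain ⟨g', hg', j, h4⟩ := hout _ hy'
      obtain ⟨z, hz, h5⟩ := hZ (g, g') (y * t⁻¹) l j h3 h4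
      obtain ⟨r, hr, n, hn, h6⟩ := hR _ h5
      refine ⟨z * r, Finset.mem_union_left _ (Finset.mem_image.2 ⟨(z, r), Finset.mem_product.2
        ⟨Finset.mem_biUnion.2 ⟨(g, g'), Finset.mem_product.2 ⟨hg, hg'⟩, hz⟩, hr⟩, rfl⟩), ?_⟩
      have h7 : (z * r)⁻¹ * y = r⁻¹ * (z⁻¹ * (y * t⁻¹) * t) := by group
      rw [h7, h6]
      have h8 : r⁻¹ * (r * n) = n := by group
      rw [h8]
      exact hn
  obtain ⟨Y, hY⟩ := hbd
  choose cg hcg using fun g : G => bound hT g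
  refine ⟨Y, T'.sup cg, ?_⟩
  intro i a ha b hb
  obtain ⟨x, hx⟩ : ∃ x, x = a * t ^ i * b := ⟨_, rfl⟩
  rw [← hx]
  have hDx : D N t i x := ⟨a, ha, b, hb, hx⟩
  have hle : ∀ s : ℕ, X (x * (t ^ s)⁻¹) → s ≤ i + T'.sup cg := by
    intro s hs
    rw [hXm] at hs
    obtain ⟨g, hg, l, h1⟩ := hs
    have h2 := D_pow hT h1 s
    have h3 : g⁻¹ * (x * (t ^ s)⁻¹) * t ^ s = g⁻¹ * x := by group
    rw [h3] at h2
    have h4 := hcg g i (l + s) x hDx h2
    have h5 : cg g ≤ T'.sup cg := Finset.le_sup hg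
    omega
  have hex : ∃ s : ℕ, ¬ X (x * (t ^ s)⁻¹) := by
    refine ⟨i + T'.sup cg + 1, fun h => ?_⟩
    have := hle _ h
    omega
  have h0 : X (x * (t ^ 0)⁻¹) := by
    rw [hXm]
    refine ⟨1, by rw [hT']; exact Finset.mem_insert_self _ _, i, ?_⟩
    simpa using hDx
  obtain ⟨s, hs1, hs2⟩ : ∃ s : ℕ, X (x * (t ^ s)⁻¹) ∧ ¬ X (x * (t ^ (s + 1))⁻¹) := by
    by_contra hcon
    push Not at hcon
    obtain ⟨s, hs⟩ := hex
    apply hs
    clear hs
    induction s with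
    | zero => exact h0
    | succ s ih => exact hcon s ih
  have h1 : x * (t ^ (s + 1))⁻¹ = x * (t ^ s)⁻¹ * t⁻¹ := by
    rw [pow_succ', mul_inv_rev]
    group
  rw [h1] at hs2
  obtain ⟨z, hz, h2⟩ := hY _ hs1 hs2
  refine ⟨s, hle s hs1, z, hz, _, h2, ?_⟩
  group

end Pool.Agent.J4H98.CY
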